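import Pool.Agent.X88.BesselC

set_option autoImplicit false

namespace Pool.Agent.Results.MP_f30c32_an.TuranMinimaIncrease

open Set Filter Topology Pool.Agent.X88.Bessel

lemma tendsto_zero {ν : ℝ} (hν : 0 < ν) :
    Tendsto (turanRatio ν) (𝓝[>] 0) (𝓝 (1 / (ν + 1))) := by
  have hν1 : -1 < ν := by linarith
  have h0 := A_zero_pos (ν := ν) hν1
  have hA : Continuous (fun x : ℝ => A ν (x ^ 2 / 4)) :=
    (A_cont hν1).comp (by fun_prop)
  have hD : Continuous (fun x : ℝ => D ν (x ^ 2 / 4)) :=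
    (D_cont hν).comp (by fun_prop)
  have h1 : ContinuousAt (fun x : ℝ => P ν (x ^ 2 / 4)) 0 := by
    unfold P
    refine hD.continuousAt.div (hA.continuousAt.pow 2) ?_
    simp [h0.ne']
  have h2 : P ν ((0:ℝ) ^ 2 / 4) = 1 / (ν + 1) := by
    have h3 := A_zero_succ hν1
    have h4 := A_zero_pos (ν := ν + 1) (by linarith)
    have h5 : ν + 1 ≠ 0 := by linarith
    unfold P D
    norm_num
    rw [h3]
    field_simp
    ring
  have h3 : Tendsto (fun x : ℝ => P ν (x ^ 2 / 4)) (𝓝[>] 0) (𝓝 (1 / (ν + 1))) := by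
    rw [← h2]
    exact h1.tendsto.mono_left nhdsWithin_le_nhds
  refine h3.congr' ?_
  have h4 : ∀ᶠ x in 𝓝[>] (0:ℝ), A ν (x ^ 2 / 4) ≠ 0 :=
    (isolated hν le_rfl).filter_mono (nhdsWithin_mono _ (fun x hx => ne_of_gt hx))
  filter_upwards [h4, self_mem_nhdsWithin] with x hx1 hx2
  exact (turanRatio_eq hν hx2 (fun h => hx1 ((besselJ_zero_iff ν hx2).1 h))).symm

/-- **Q1 holds for every `ν > 0`.**  Here `besselJ ν` is the Bessel function of the first kind of
real order `ν` (power series), `besselZero ν n` is its `n`-th positive zero `j_{ν,n}` (with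
`besselZero ν 0 = 0`) and `turanRatio ν = Δ_ν / J_ν ^ 2` is the function `Φ_ν`.
The zeros are infinitely many and are listed increasingly by `besselZero ν`; `Φ_ν` tends to
`1 / (ν + 1)` at `0+`; for every `n ≥ 1` the derivative `Φ_ν'` vanishes at exactly one point
`α n` of `(j_{ν,n}, j_{ν,n+1})`; and the sequence `β_{ν,0} = 1 / (ν + 1)`,
`β_{ν,n} = Φ_ν (α n)` (`n ≥ 1`) is strictly increasing. -/
theorem result (ν : ℝ) (hν : 0 < ν) :
    StrictMono (besselZero ν) ∧
    (∀ x : ℝ, 0 < x → (besselJ ν x = 0 ↔ ∃ n : ℕ, x = besselZero ν (n + 1))) ∧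
    Tendsto (turanRatio ν) (𝓝[>] 0) (𝓝 (1 / (ν + 1))) ∧
    ∃ α : ℕ → ℝ,
      (∀ n : ℕ, 1 ≤ n → α n ∈ Ioo (besselZero ν n) (besselZero ν (n + 1)) ∧
        ∀ y ∈ Ioo (besselZero ν n) (besselZero ν (n + 1)),
          DifferentiableAt ℝ (turanRatio ν) y ∧ (deriv (turanRatio ν) y = 0 ↔ y = α n)) ∧
      StrictMono (fun n : ℕ => if n = 0 then 1 / (ν + 1) else turanRatio ν (α n)) :=
  ⟨besselZero_strictMono hν, fun _ hx => besselZero_complete hν hx, tendsto_zero hν, main hν⟩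

end Pool.Agent.Results.MP_f30c32_an.TuranMinimaIncrease
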